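import Mathlib
import Pool.Agent.Helper41K9.BH.Main

/-!
# Besov and Hardy-Bessel capacities have the same null sets for `0 < p ≤ 1`

For all `α > 0`, `0 < p ≤ 1` and all compact `K ⊂ ℝⁿ`: `A_{α,p,p}(K) = 0` if and only if
`B_{α,p}(K) = 0`.

`capA φ α p D K` is the Besov capacity `A_{α,p,p}(K)`: the infimum of `∑_j 2^{jαp} ‖Δ_j u‖_p^p` over
the real valued `u ∈ D` with `u ≥ 1` on `K` (Littlewood-Paley pieces `Δ_j` of the smooth resolution
of unity generated by a cutoff `φ`).  `capB T α p D K` is the Hardy-Bessel capacity `B_{α,p}(K)`:
the infimum of `‖f‖_{H^p}^p` over the `f` for which the Bessel potential `u = G_α * f` is real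
valued, lies in `D` and satisfies `u ≥ 1` on `K`.  The quasi-norm `‖f‖_{H^p}` is the `L^p`
quasi-norm of the nontangential maximal function of the heat extension over all heights `t ≤ T`;
`T = ∞` gives the real Hardy space `H^p` and `T = 1` its local version `h^p`.  The class `D` of
competitors is any class of Schwartz functions which contains the compactly supported smooth
functions; the two capacities may even use different classes `D` and `D'`.

The proof shows that both capacities vanish exactly when the dyadic (base `2^M`) content of
dimension `max (n - αp) 0` of `K` is zero.  The new part is the upper bound of the capacities when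
`α ≤ n (1/p - 1)`: the building blocks must have cancellation, hence negative values, and a
recursive construction over a tree of cubes keeps the negative parts of the blocks of a child inside
the parent cube, where they are compensated with geometrically small losses.
-/

set_option autoImplicit false

open scoped ENNReal SchwartzMap

noncomputable section

namespace Pool.Agent.Results.MP_9b3711_an.BesovHardyNull

open Pool.Agent.Helper41K9.BH

/-- For `0 < p ≤ 1` and `α > 0` a compact set is null for the Besov capacity `A_{α,p,p}` if and only
if it is null for the Hardy-Bessel capacity `B_{α,p}`. -/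
theorem result {n : ℕ} (hn : 0 < n) (φ : E n → ℝ) (hφ : IsCutoff φ) (α p : ℝ) (hα : 0 < α)
    (hp : 0 < p) (hp1 : p ≤ 1) (T : ℝ≥0∞) (hT : 1 ≤ T)
    (D D' : Set 𝓢(E n, ℂ)) (hD : ∀ u : 𝓢(E n, ℂ), HasCompactSupport u → u ∈ D)
    (hD' : ∀ u : 𝓢(E n, ℂ), HasCompactSupport u → u ∈ D') (K : Set (E n)) (hK : IsCompact K) :
    capA φ α p D K = 0 ↔ capB T α p D' K = 0 := by
  rcases lt_or_ge (α * p) n with h | h
  · exact main_small hn φ hφ α p hα hp hp1 h T hT D D' hD hD' K hK
  · exact main_large hn φ hφ α p hα hp hp1 h T hT D D' hD hD' K

end Pool.Agent.Results.MP_9b3711_an.BesovHardyNull
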